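import Mathlib

namespace Pool.Agent.H.MP_02a511_an
open MeasureTheory Set Real Filter Topology

lemma tang {a u : ℝ} (ha : 0 < a) (hu : 0 < u) :
    a * log a ≤ u * log u + (a - u) * (log u + 1) + (a - u) ^ 2 / u := by
  have h := log_le_sub_one_of_pos (div_pos ha hu)
  rw [log_div ha.ne' hu.ne'] at h
  have h2 := mul_le_mul_of_nonneg_left h ha.le
  have : a * (a / u - 1) = (a - u) + (a - u) ^ 2 / u := by field_simp; ring
  nlinarith

noncomputable def E (u y : ℝ) : ℝ := 40 * (y ^ 2 / u) - u * log u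
noncomputable def G (u y p q : ℝ) : ℝ := (q - y / u * p) ^ 2 / u
noncomputable def M (u y p q : ℝ) : ℝ := E u y - 2 * (p ^ 2 / u) + 24 * G u y p q

lemma gain {u1 u2 : ℝ} (y1 y2 : ℝ) (h1 : 0 < u1) (h2 : 0 < u2) :
    G ((u1 + u2) / 2) ((y1 + y2) / 2) ((u2 - u1) / 2) ((y2 - y1) / 2) ≤
      u1 * u2 * (y1 / u1 - y2 / u2) ^ 2 / (2 * (u1 + u2)) ∧
    E ((u1 + u2) / 2) ((y1 + y2) / 2) + 40 * (u1 * u2 * (y1 / u1 - y2 / u2) ^ 2 / (2 * (u1 + u2)))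
      - ((u2 - u1) / 2) ^ 2 / ((u1 + u2) / 2) ≤ (E u1 y1 + E u2 y2) / 2 := by
  constructor
  · have : G ((u1 + u2) / 2) ((y1 + y2) / 2) ((u2 - u1) / 2) ((y2 - y1) / 2) =
        u1 * u2 * (y1 / u1 - y2 / u2) ^ 2 / (2 * (u1 + u2)) * (4 * u1 * u2 / (u1 + u2) ^ 2) := by
      rw [G]; field_simp; ring
    rw [this]
    refine mul_le_of_le_one_right (by positivity) (div_le_one_of_le₀ ?_ (by positivity))
    nlinarith [sq_nonneg (u1 - u2)]
  · have e : (y1 ^ 2 / u1 + y2 ^ 2 / u2) / 2 = ((y1 + y2) / 2) ^ 2 / ((u1 + u2) / 2) +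
        u1 * u2 * (y1 / u1 - y2 / u2) ^ 2 / (2 * (u1 + u2)) := by field_simp; ring
    have t1 := tang h1 (show 0 < (u1 + u2) / 2 by positivity)
    have t2 := tang h2 (show 0 < (u1 + u2) / 2 by positivity)
    rw [show (u1 - (u1 + u2) / 2) ^ 2 = ((u2 - u1) / 2) ^ 2 by ring] at t1
    rw [show (u2 - (u1 + u2) / 2) ^ 2 = ((u2 - u1) / 2) ^ 2 by ring] at t2
    simp only [E]
    nlinarith

lemma half {u1 u2 p q a b g : ℝ} (h1 : 0 < u1) (h : u1 ≤ u2) (hp : p ^ 2 ≤ u1 ^ 2)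
    (e : p ^ 2 + q ^ 2 ≤ 2 * a ^ 2 + 2 * b ^ 2 + 2 * p ^ 2 * g ^ 2) :
    p ^ 2 / u1 + q ^ 2 / u2 ≤ 12 * (a ^ 2 / u1 + b ^ 2 / u2) +
      16 * (u1 * u2 * g ^ 2 / (2 * (u1 + u2))) + ((u2 - u1) / 2) ^ 2 / ((u1 + u2) / 2) := by
  have h2 : 0 < u2 := by linarith
  obtain ⟨A, hA⟩ : ∃ A, A = a ^ 2 / u1 := ⟨_, rfl⟩
  obtain ⟨B, hB⟩ : ∃ B, B = b ^ 2 / u2 := ⟨_, rfl⟩
  obtain ⟨C, hC⟩ : ∃ C, C = u1 * u2 * g ^ 2 / (2 * (u1 + u2)) := ⟨_, rfl⟩
  have A0 : 0 ≤ A := by rw [hA]; positivity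
  have B0 : 0 ≤ B := by rw [hB]; positivity
  have C0 : 0 ≤ C := by rw [hC]; positivity
  rw [← hA, ← hB, ← hC]
  rw [eq_div_iff (by positivity)] at hA hB hC
  have k1 : u1 ^ 2 * g ^ 2 ≤ 4 * u1 * C := by
    have : u1 * g ^ 2 ≤ 4 * C := le_of_mul_le_mul_right (by nlinarith) h2
    nlinarith
  have k2 : p ^ 2 + q ^ 2 ≤ 2 * A * u1 + 2 * B * u2 + 8 * u1 * C := by
    nlinarith [mul_le_mul_of_nonneg_right hp (sq_nonneg g)]
  have k3 : q ^ 2 / u2 ≤ 2 * A + 2 * B + 8 * C := by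
    rw [div_le_iff₀ h2]
    nlinarith [mul_le_mul_of_nonneg_left h A0, mul_le_mul_of_nonneg_left h C0, sq_nonneg p]
  have D0 : 0 ≤ ((u2 - u1) / 2) ^ 2 / ((u1 + u2) / 2) := by positivity
  by_cases h5 : u2 ≤ 5 * u1
  · have : p ^ 2 / u1 ≤ 2 * A + 10 * B + 8 * C := by
      rw [div_le_iff₀ h1]
      nlinarith [mul_le_mul_of_nonneg_left h5 B0, sq_nonneg q]
    linarith
  · have k4 : p ^ 2 / u1 ≤ u1 := by rw [div_le_iff₀ h1]; linarith
    have k5 : u1 ≤ ((u2 - u1) / 2) ^ 2 / ((u1 + u2) / 2) := by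
      rw [le_div_iff₀ (by positivity)]; nlinarith
    linarith

lemma loc {u1 u2 p q : ℝ} (y1 y2 : ℝ) (h1 : 0 < u1) (h2 : 0 < u2) (hp : p ^ 2 ≤ u1 ^ 2)
    (hq : q ^ 2 ≤ u2 ^ 2) :
    M ((u1 + u2) / 2) ((y1 + y2) / 2) ((u2 - u1) / 2) ((y2 - y1) / 2) ≤
      (M u1 y1 p q + M u2 y2 q (-p)) / 2 := by
  obtain ⟨g1, g2⟩ := gain y1 y2 h1 h2
  simp only [M]
  suffices p ^ 2 / u1 + q ^ 2 / u2 ≤ 12 * (G u1 y1 p q + G u2 y2 q (-p)) +
      16 * (u1 * u2 * (y1 / u1 - y2 / u2) ^ 2 / (2 * (u1 + u2))) +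
      ((u2 - u1) / 2) ^ 2 / ((u1 + u2) / 2) by linarith
  simp only [G]
  generalize y1 / u1 = r at *
  generalize y2 / u2 = s at *
  rcases le_total u1 u2 with h | h
  · exact half h1 h hp (by
      nlinarith [sq_nonneg (p / 2 + (-p - s * q)), sq_nonneg (q / 2 - (q - r * p)),
        sq_nonneg (q / 2 - p * (r - s)), sq_nonneg p])
  · have := half (q := p) (a := -p - s * q) (b := q - r * p) (g := r - s) h2 h hq (by
      nlinarith [sq_nonneg (p / 2 + (-p - s * q)), sq_nonneg (q / 2 - (q - r * p)),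
        sq_nonneg (p / 2 - q * (r - s)), sq_nonneg q])
    rw [add_comm u2, mul_comm u2, show ((u1 - u2) / 2) ^ 2 = ((u2 - u1) / 2) ^ 2 by ring] at this
    linarith

lemma last {u1 u2 : ℝ} (y1 y2 : ℝ) (h1 : 0 < u1) (h2 : 0 < u2) :
    M ((u1 + u2) / 2) ((y1 + y2) / 2) ((u2 - u1) / 2) ((y2 - y1) / 2) ≤
      (E u1 y1 + E u2 y2) / 2 := by
  obtain ⟨g1, g2⟩ := gain y1 y2 h1 h2
  have : 0 ≤ u1 * u2 * (y1 / u1 - y2 / u2) ^ 2 / (2 * (u1 + u2)) := by positivity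
  have : 0 ≤ ((u2 - u1) / 2) ^ 2 / ((u1 + u2) / 2) := by positivity
  simp only [M]
  linarith

def I (j k : ℤ) : Set ℝ := Ico (k * 2 ^ j) ((k + 1) * 2 ^ j)

lemma I_meas (j k : ℤ) : MeasurableSet (I j k) := measurableSet_Ico

lemma I_vol (j k : ℤ) : volume.real (I j k) = 2 ^ j := by
  rw [I, Real.volume_real_Ico, max_eq_left] <;> [ring; (ring_nf; positivity)]

lemma I_fin (j k : ℤ) : volume (I j k) ≠ ⊤ := measure_Ico_lt_top.ne

instance (j k : ℤ) : IsFiniteMeasure (volume.restrict (I j k)) :=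
  isFiniteMeasure_restrict.2 (I_fin j k)

lemma I_split {u : ℝ → ℝ} {j k : ℤ} (h : ∀ j k, IntegrableOn u (I j k)) :
    ∫ t in I (j + 1) k, u t = (∫ t in I j (2 * k), u t) + ∫ t in I j (2 * k + 1), u t := by
  have : (0 : ℝ) < 2 ^ j := by positivity
  rw [← setIntegral_union (s := I j (2 * k)) (t := I j (2 * k + 1))
    (Ico_disjoint_Ico.2 (by push_cast; simp)) (I_meas _ _) (h _ _) (h _ _)]
  simp only [I]
  push_cast
  rw [Ico_union_Ico_eq_Ico (by nlinarith) (by nlinarith), zpow_add_one₀ two_ne_zero]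
  congr 2 <;> ring_nf

noncomputable def A (u : ℝ → ℝ) (j k : ℤ) : ℝ := (∫ t in I j k, u t) / 2 ^ j

lemma A_split {u : ℝ → ℝ} (h : ∀ j k, IntegrableOn u (I j k)) (j k : ℤ) :
    A u (j + 1) k = (A u j (2 * k) + A u j (2 * k + 1)) / 2 := by
  rw [A, I_split h, zpow_add_one₀ two_ne_zero, A, A]; field_simp

noncomputable def Δ (u : ℝ → ℝ) (j k : ℤ) : ℝ := (A u (j - 1) (2 * k + 1) - A u (j - 1) (2 * k)) / 2

theorem bell {f y w : ℝ → ℝ} (hf : ∀ j k, IntegrableOn f (I j k)) (hy : ∀ j k, IntegrableOn y (I j k))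
    (hw : ∀ j k, IntegrableOn w (I j k)) {d : ℝ} (hd : 0 < d) (f0 : ∀ t, 0 ≤ f t)
    (h1 : ∀ j k, Δ y j (2 * k) = Δ f j (2 * k + 1)) (h2 : ∀ j k, Δ y j (2 * k + 1) = -Δ f j (2 * k))
    {N : ℤ} (hN : ∀ k, E (A f N k + d) (A y N k) ≤ A w N k) {j : ℤ} (hj : N + 1 ≤ j) (k : ℤ) :
    M (A f j k + d) (A y j k) (Δ f j k) (Δ y j k) ≤ A w j k := by
  have a0 : ∀ j k, 0 ≤ A f j k := fun j k => div_nonneg (integral_nonneg f0) (by positivity)
  have e : ∀ j k, M (A f (j + 1) k + d) (A y (j + 1) k) (Δ f (j + 1) k) (Δ y (j + 1) k) =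
      M ((A f j (2 * k) + d + (A f j (2 * k + 1) + d)) / 2) ((A y j (2 * k) + A y j (2 * k + 1)) / 2)
        ((A f j (2 * k + 1) + d - (A f j (2 * k) + d)) / 2) ((A y j (2 * k + 1) - A y j (2 * k)) / 2) :=
    fun j k => by
      rw [A_split hf, A_split hy, Δ, Δ, add_sub_cancel_right]; congr 1 <;> ring
  have b : ∀ j k, Δ f j k ^ 2 ≤ (A f j k + d) ^ 2 := fun j k => by
    have := A_split hf (j - 1) k
    rw [sub_add_cancel] at this
    rw [this, Δ]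
    exact sq_le_sq' (by linarith [a0 (j - 1) (2 * k + 1)]) (by linarith [a0 (j - 1) (2 * k)])
  induction j, hj using Int.leInduction generalizing k with
  | base =>
    rw [e, A_split hw]
    refine (last _ _ (by linarith [a0 N (2 * k)]) (by linarith [a0 N (2 * k + 1)])).trans ?_
    linarith [hN (2 * k), hN (2 * k + 1)]
  | succ j hj ih =>
    rw [e, A_split hw]
    refine (loc _ _ (by linarith [a0 j (2 * k)]) (by linarith [a0 j (2 * k + 1)]) (b _ _)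
      (b _ _)).trans ?_
    have i1 := ih (2 * k)
    have i2 := ih (2 * k + 1)
    rw [h1] at i1
    rw [h2] at i2
    linarith

end Pool.Agent.H.MP_02a511_an
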