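import Pool.Agent.H.MP_02a511_an.A

namespace Pool.Agent.H.MP_02a511_an
open MeasureTheory Set Real Filter Topology

lemma A_const (c : ℝ) (j k : ℤ) : A (fun _ => c) j k = c := by
  rw [A, setIntegral_const, I_vol, smul_eq_mul]; field_simp

lemma A_lin {f y w : ℝ → ℝ} {j k : ℤ} (hf : IntegrableOn f (I j k)) (hy : IntegrableOn y (I j k))
    (hw : IntegrableOn w (I j k)) {a b c : ℝ} (h : ∀ t ∈ I j k, a + b * f t + c * y t ≤ w t) :
    a + b * A f j k + c * A y j k ≤ A w j k := by
  have h1 : Integrable (fun t => a + b * f t) (volume.restrict (I j k)) :=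
    (integrable_const a).add (hf.const_mul b)
  have := setIntegral_mono_on (h1.add (hy.const_mul c)) hw (I_meas j k) h
  rw [Pi.add_def, integral_add h1 (hy.const_mul c), integral_add (integrable_const a) (hf.const_mul b),
    integral_const_mul, integral_const_mul, setIntegral_const, I_vol, smul_eq_mul] at this
  simp only [A]
  rw [le_div_iff₀ (by positivity)]
  refine le_of_eq_of_le ?_ this
  field_simp

theorem top {f y g : ℝ → ℝ} (f01 : ∀ t, f t = 0 ∨ f t = 1) (mf : Measurable f)
    (hy : MemLp y 2 volume) (hg : MemLp (fun t => f t - g t) 2 volume) (ug : UniformContinuous g)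
    {d : ℝ} (hd : 0 < d) (hd1 : d ≤ 1)
    (h1 : ∀ j k, Δ y j (2 * k) = Δ f j (2 * k + 1)) (h2 : ∀ j k, Δ y j (2 * k + 1) = -Δ f j (2 * k))
    (j k : ℤ) : (∫ t in I j k, f t) * (-log d - 1) - 3 * (∫ t in I j k, f t) ^ 2 / (2 ^ j * d) ≤
      ∫ t in I j k, (40 * y t ^ 2 + 40 / d * ((1 - f t) * y t ^ 2) + 2 / d * (f t - g t) ^ 2) := by
  have f0 : ∀ t, 0 ≤ f t := fun t => by rcases f01 t with h | h <;> simp [h]
  have f1 : ∀ t, f t ≤ 1 := fun t => by rcases f01 t with h | h <;> simp [h]
  have hf : ∀ j k, IntegrableOn f (I j k) := fun j k =>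
    .of_bound (I_fin j k).lt_top mf.aestronglyMeasurable 1
      (.of_forall fun t => by rw [Real.norm_of_nonneg (f0 t)]; exact f1 t)
  have hy1 : ∀ j k, IntegrableOn y (I j k) := fun j k => (hy.restrict _).integrable one_le_two
  set v := fun t => 40 * y t ^ 2 + 40 / d * ((1 - f t) * y t ^ 2) + 2 / d * (f t - g t) ^ 2 with hv
  have iv : Integrable v := ((hy.integrable_sq.const_mul _).add ((hy.integrable_sq.bdd_mul (c := 1)
    (by fun_prop) (.of_forall fun t => by
      rw [Real.norm_of_nonneg (by linarith [f1 t])]; linarith [f0 t])).const_mul _)).add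
    (hg.integrable_sq.const_mul _)
  have hj : (0 : ℝ) < 2 ^ j := by positivity
  refine le_of_forall_pos_le_add fun ε hε => ?_
  obtain ⟨δ, hδ, hg'⟩ := Metric.uniformContinuous_iff.1 ug (√(ε * d / 2 / 2 ^ j)) (by positivity)
  obtain ⟨N, hN1, hN2⟩ : ∃ N : ℤ, N + 1 ≤ j ∧ (2 : ℝ) ^ N < δ := by
    obtain ⟨n, hn⟩ := exists_mem_Ioc_zpow hδ one_lt_two
    exact ⟨min n (j - 1), by omega, (zpow_le_zpow_right₀ one_le_two (min_le_left _ _)).trans_lt hn.1⟩
  let κ := (1 + d) * log (1 + d) - d * log d
  have hw : ∀ j' k, IntegrableOn (fun t => v t + ((ε / 2 ^ j - d * log d) - κ * f t)) (I j' k) :=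
    fun j' k => iv.integrableOn.add ((integrable_const _).sub ((hf j' k).const_mul _))
  have a0 : ∀ j k, 0 ≤ A f j k := fun j k => div_nonneg (integral_nonneg f0) (by positivity)
  have key := bell hf hy1 hw hd f0 h1 h2 (N := N) (fun k => ?_) hN1 k
  · have e : A (fun t => v t + ((ε / 2 ^ j - d * log d) - κ * f t)) j k =
        A v j k + (ε / 2 ^ j - d * log d - κ * A f j k) := by
      simp only [A]
      rw [integral_add iv.integrableOn (g := fun t => ε / 2 ^ j - d * log d - κ * f t)
        ((integrable_const _).sub ((hf j k).const_mul _)),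
        integral_sub (integrable_const _) ((hf j k).const_mul _), integral_const_mul,
        setIntegral_const, I_vol, smul_eq_mul]
      field_simp
    have hx := a0 j k
    have b : Δ f j k ^ 2 ≤ A f j k ^ 2 := by
      have := A_split hf (j - 1) k
      rw [sub_add_cancel] at this
      rw [this, Δ]
      exact sq_le_sq' (by linarith [a0 (j - 1) (2 * k + 1)]) (by linarith [a0 (j - 1) (2 * k)])
    rw [e, M, E, G] at key
    have e1 : ∫ t in I j k, f t = A f j k * 2 ^ j := by rw [A]; field_simp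
    have e2 : ∫ t in I j k, v t = A v j k * 2 ^ j := by rw [A]; field_simp
    rw [e1, e2]
    generalize A f j k = x at *
    have t1 := tang (show 0 < x + d by positivity) hd
    have t2 : Δ f j k ^ 2 / (x + d) ≤ x ^ 2 / d := by gcongr; linarith
    have t3 : 0 ≤ A y j k ^ 2 / (x + d) := by positivity
    have t4 : 0 ≤ (Δ y j k - A y j k / (x + d) * Δ f j k) ^ 2 / (x + d) := by positivity
    have t5 : 0 ≤ κ * x := mul_nonneg (by
      have := log_nonneg (show 1 ≤ 1 + d by linarith)
      have := log_nonpos hd.le hd1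
      simp only [κ]; nlinarith) hx
    rw [add_sub_cancel_right] at t1
    have t6 : x * (-log d - 1) - 3 * (x ^ 2 / d) ≤ A v j k + ε / 2 ^ j := by linarith
    have := mul_le_mul_of_nonneg_right t6 hj.le
    refine le_of_eq_of_le ?_ (this.trans_eq ?_) <;> field_simp
  · have hx := a0 N k
    have := A_lin (hf N k) (hy1 N k) (hw N k) (c := 80 * (A y N k / (A f N k + d)))
      (a := -40 * (A y N k / (A f N k + d)) ^ 2 * d - (A f N k + d) * log (A f N k + d) +
        A f N k * (log (A f N k + d) + 1 - 2 * (A f N k - g (k * 2 ^ N)) / d))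
      (b := -40 * (A y N k / (A f N k + d)) ^ 2 -
        (log (A f N k + d) + 1 - 2 * (A f N k - g (k * 2 ^ N)) / d)) fun t ht => ?_
    · refine le_of_eq_of_le ?_ this
      rw [E]; field_simp; ring
    have h3 := hg' (a := t) (b := k * 2 ^ N) (by
      rw [Real.dist_eq, abs_of_nonneg (by linarith [ht.1])]; linarith [ht.2])
    rw [Real.dist_eq] at h3
    replace h3 := sq_le_sq' (abs_lt.1 h3).1.le (abs_lt.1 h3).2.le
    rw [Real.sq_sqrt (by positivity), le_div_iff₀ hj] at h3
    generalize A f N k = x at *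
    generalize A y N k / (x + d) = ρ
    generalize g (k * 2 ^ N) = c at *
    have t1 := tang (show 0 < f t + d by linarith [f0 t]) (show 0 < x + d by positivity)
    have t2 : (f t + d - (x + d)) ^ 2 / (x + d) ≤ (f t - x) ^ 2 / d := by
      rw [add_sub_add_right_eq_sub]; gcongr; linarith
    have t3 : (f t - x) ^ 2 / d ≤ 2 / d * (f t - g t) ^ 2 + ε / 2 ^ j - (f t - x) * (2 * (x - c) / d) := by
      rw [div_le_iff₀ hd]
      have : (g t - c) ^ 2 * 2 ≤ ε / 2 ^ j * d := by
        rw [div_mul_eq_mul_div, le_div_iff₀ hj]; linarith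
      field_simp
      field_simp at this
      nlinarith [sq_nonneg (x - c), sq_nonneg (f t - g t - (g t - c))]
    have t4 : (f t + d) * log (f t + d) = d * log d + κ * f t := by
      rcases f01 t with h | h <;> simp [h, κ]
    have t5 : 2 * ρ * y t - ρ ^ 2 * (f t + d) ≤ y t ^ 2 + 1 / d * ((1 - f t) * y t ^ 2) := by
      rcases f01 t with h | h <;> rw [h]
      · have : 2 * ρ * y t - ρ ^ 2 * d ≤ y t ^ 2 / d := by
          rw [le_div_iff₀ hd]; nlinarith [sq_nonneg (ρ * d - y t)]
        rw [sub_zero, one_mul, one_div_mul_eq_div, zero_add]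
        nlinarith [sq_nonneg (y t)]
      · nlinarith [sq_nonneg (ρ - y t), mul_nonneg (sq_nonneg ρ) hd.le]
    simp only [hv]
    rw [show 40 / d = 40 * (1 / d) by ring]
    nlinarith

theorem glob {V : Set ℝ} (mV : MeasurableSet V) (fV : volume V ≠ ⊤) {y : ℝ → ℝ}
    (hy : MemLp y 2 volume) (ny : ∫ t, y t ^ 2 ≤ volume.real V)
    (h1 : ∀ j k, Δ y j (2 * k) = Δ (V.indicator 1) j (2 * k + 1))
    (h2 : ∀ j k, Δ y j (2 * k + 1) = -Δ (V.indicator 1) j (2 * k)) :
    ∫ t in V, y t ^ 2 ≤ (1 - exp (-42) / 40) * volume.real V := by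
  set f : ℝ → ℝ := V.indicator 1 with hf
  have f01 : ∀ t, f t = 0 ∨ f t = 1 := fun t => by by_cases h : t ∈ V <;> simp [hf, h]
  have f0 : ∀ t, 0 ≤ f t := fun t => by rcases f01 t with h | h <;> simp [h]
  have f1 : ∀ t, f t ≤ 1 := fun t => by rcases f01 t with h | h <;> simp [h]
  have mf : Measurable f := measurable_one.indicator mV
  have f2 : MemLp f 2 volume := memLp_indicator_const 2 mV 1 (Or.inr fV)
  have fi : Integrable f := (integrable_indicator_iff mV).2 (integrableOn_const fV)
  have fa : ∫ t, f t = volume.real V := integral_indicator_one mV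
  set d := exp (-42) with hd
  have d0 : 0 < d := exp_pos _
  have i1 : Integrable fun t => (1 - f t) * y t ^ 2 := hy.integrable_sq.bdd_mul (c := 1)
    (by fun_prop) (.of_forall fun t => by
      rw [Real.norm_of_nonneg (by linarith [f1 t])]; linarith [f0 t])
  have e1 : ∫ t in V, y t ^ 2 = (∫ t, y t ^ 2) - ∫ t, (1 - f t) * y t ^ 2 := by
    rw [← integral_sub hy.integrable_sq i1, ← integral_indicator mV]
    congr 1; ext t; by_cases h : t ∈ V <;> simp [hf, h]
  suffices 41 * volume.real V ≤ 40 * (∫ t, y t ^ 2) + 40 / d * ∫ t, (1 - f t) * y t ^ 2 by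
    rw [e1]
    have h3 : volume.real V ≤ 40 / d * ∫ t, (1 - f t) * y t ^ 2 := by linarith
    rw [div_mul_eq_mul_div, le_div_iff₀ d0] at h3
    linarith
  refine le_of_forall_pos_le_add fun ε hε => ?_
  obtain ⟨g, gc, hg, cg, mg⟩ := MemLp.exists_hasCompactSupport_integral_rpow_sub_le (f := f)
    (μ := volume) two_pos (by simpa using f2)
    (show 0 < ε * d / 2 by positivity)
  simp only [ENNReal.ofReal_ofNat, Real.norm_eq_abs, rpow_two, sq_abs] at hg mg
  have fg : MemLp (fun t => f t - g t) 2 volume := f2.sub mg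
  set v := fun t => 40 * y t ^ 2 + 40 / d * ((1 - f t) * y t ^ 2) + 2 / d * (f t - g t) ^ 2 with hv
  have i2 : Integrable fun t => 40 * y t ^ 2 + 40 / d * ((1 - f t) * y t ^ 2) :=
    (hy.integrable_sq.const_mul 40).add (i1.const_mul (40 / d))
  have iv : Integrable v := i2.add (fg.integrable_sq.const_mul _)
  have v0 : ∀ t, 0 ≤ v t := fun t => by have := sub_nonneg.2 (f1 t); positivity
  have e2 : ∫ t, v t ≤ 40 * (∫ t, y t ^ 2) + 40 / d * (∫ t, (1 - f t) * y t ^ 2) + ε := by
    rw [integral_add i2 (fg.integrable_sq.const_mul _),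
      integral_add (hy.integrable_sq.const_mul 40) (i1.const_mul _), integral_const_mul,
      integral_const_mul, integral_const_mul]
    gcongr
    rw [div_mul_eq_mul_div, div_le_iff₀ d0]; linarith
  refine le_trans ?_ e2
  have u : ∀ (u : ℝ → ℝ), Integrable u → ∀ n : ℕ, (∫ t in I n (-1), u t) + ∫ t in I n 0, u t =
      ∫ t in (-2 ^ n : ℝ)..2 ^ n, u t := fun u hu n => by
    have : (0 : ℝ) < 2 ^ n := by positivity
    rw [← intervalIntegral.integral_add_adjacent_intervals (b := 0) hu.intervalIntegrable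
      hu.intervalIntegrable, intervalIntegral.integral_of_le (by linarith),
      intervalIntegral.integral_of_le this.le, integral_Ioc_eq_integral_Ioo,
      integral_Ioc_eq_integral_Ioo, ← integral_Ico_eq_integral_Ioo, ← integral_Ico_eq_integral_Ioo]
    simp [I]
  have p2 := tendsto_pow_atTop_atTop_of_one_lt (one_lt_two (α := ℝ))
  have l := fun (u : ℝ → ℝ) (hu : Integrable u) =>
    intervalIntegral_tendsto_integral hu (tendsto_neg_atTop_atBot.comp p2) p2
  have l2 : Tendsto (fun n : ℕ => 6 * volume.real V ^ 2 / (2 ^ n * d)) atTop (𝓝 0) :=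
    tendsto_const_nhds.div_atTop (p2.atTop_mul_const d0)
  have := le_of_tendsto_of_tendsto' (((l f fi).const_mul 41).sub l2) (l v iv) fun n => by
    have k := fun k => top f01 mf hy fg (gc.uniformContinuous_of_continuous cg) d0
      (exp_le_one_iff.2 (by norm_num)) h1 h2 n k
    have b : ∀ k, 3 * (∫ t in I n k, f t) ^ 2 / (2 ^ (n : ℤ) * d) ≤
        3 * volume.real V ^ 2 / (2 ^ n * d) := fun k => by
      rw [zpow_natCast, ← fa]
      have h3 : 0 ≤ ∫ t in I n k, f t := integral_nonneg f0
      have h4 := setIntegral_le_integral (s := I n k) fi (.of_forall f0)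
      gcongr
    have k3 : (∫ t in I n (-1), v t) + ∫ t in I n 0, v t = _ := u v iv n
    simp only [Function.comp, ← u f fi, ← k3]
    have k1 := k (-1)
    have k2 := k 0
    rw [hd, log_exp] at k1 k2
    have : 6 * volume.real V ^ 2 / (2 ^ n * d) = 2 * (3 * volume.real V ^ 2 / (2 ^ n * d)) := by ring
    linarith [b (-1), b 0]
  rwa [fa, sub_zero] at this

end Pool.Agent.H.MP_02a511_an
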