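import Pool.Agent.H.MP_02a511_an.B

namespace Pool.Agent.H.MP_02a511_an
open MeasureTheory Set Real Filter Topology
open scoped InnerProductSpace

noncomputable abbrev L2 := Lp ℝ 2 (volume : Measure ℝ)

noncomputable def ind (j k : ℤ) : L2 := indicatorConstLp 2 (I_meas j k) (I_fin j k) 1

noncomputable def h (j k : ℤ) : L2 := (√(2 ^ j))⁻¹ • (ind (j - 1) (2 * k + 1) - ind (j - 1) (2 * k))

lemma ind_inner (j k : ℤ) (u : L2) : ⟪ind j k, u⟫_ℝ = A u j k * 2 ^ j := by
  rw [ind, L2.inner_indicatorConstLp_one, A]; field_simp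

lemma h_inner (j k : ℤ) (u : L2) : ⟪h j k, u⟫_ℝ = (√(2 ^ j))⁻¹ * 2 ^ j * Δ u j k := by
  rw [h, real_inner_smul_left, inner_sub_left, ind_inner, ind_inner, Δ, zpow_sub_one₀ two_ne_zero]
  ring

lemma intI (u : L2) (j k : ℤ) : IntegrableOn u (I j k) :=
  ((Lp.memLp u).restrict _).integrable one_le_two

lemma mem_I {j k : ℤ} {x : ℝ} : x ∈ I j k ↔ ⌊x / 2 ^ j⌋ = k := by
  have : (0 : ℝ) < 2 ^ j := by positivity
  rw [Int.floor_eq_iff, le_div_iff₀ this, div_lt_iff₀ this]; rfl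

lemma fl {i j : ℤ} (hij : i ≤ j) {x y : ℝ} (e : ⌊x / 2 ^ i⌋ = ⌊y / 2 ^ i⌋) :
    ⌊x / 2 ^ j⌋ = ⌊y / 2 ^ j⌋ := by
  induction j, hij using Int.leInduction with
  | base => exact e
  | succ j _ ih =>
    have : ∀ x : ℝ, ⌊x / 2 ^ (j + 1)⌋ = ⌊x / 2 ^ j⌋ / 2 := fun x => by
      rw [zpow_add_one₀ two_ne_zero, ← div_div]
      exact_mod_cast Int.floor_div_natCast (x / 2 ^ j) 2
    rw [this, this, ih]

lemma A_ind {i j : ℤ} (hij : i ≤ j) (k l : ℤ) :
    A (ind j l) i k = if ⌊(k * 2 ^ i : ℝ) / 2 ^ j⌋ = l then 1 else 0 := by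
  rw [← A_const (ite _ _ _) i k, A, A]
  congr 1
  refine setIntegral_congr_ae (I_meas _ _) ?_
  filter_upwards [indicatorConstLp_coeFn (p := 2) (hs := I_meas j l) (hμs := I_fin j l) (c := (1 : ℝ))]
    with x hx hx'
  classical
  rw [ind, hx, ← fl hij (x := x) (by rw [mem_I.1 hx']; simp [zpow_ne_zero]), indicator_apply]
  simp only [mem_I]

lemma D_ind {i j : ℤ} (hij : i ≤ j) (k l : ℤ) : Δ (ind j l) i k = 0 := by
  have : ∀ m : ℤ, ⌊((m : ℝ) * 2 ^ (i - 1)) / 2 ^ i⌋ = m / 2 := fun m => by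
    rw [zpow_sub_one₀ two_ne_zero, show (m * (2 ^ i * 2⁻¹) / 2 ^ i : ℝ) = m / 2 by field_simp]
    exact_mod_cast (Int.floor_div_natCast (m : ℝ) 2).trans (by simp)
  rw [Δ, A_ind (by omega), A_ind (by omega), fl hij (y := ((2 * k : ℤ) : ℝ) * 2 ^ (i - 1))
    (by rw [this, this]; omega), sub_self, zero_div]

lemma ii (j k l : ℤ) : ⟪ind j k, ind j l⟫_ℝ = if k = l then 2 ^ j else 0 := by
  rw [ind_inner, A_ind le_rfl]; simp [zpow_ne_zero]

lemma ortho : Orthonormal ℝ fun p : ℤ × ℤ => h p.1 p.2 := by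
  have lt : ∀ i j k l, i < j → ⟪h i k, h j l⟫_ℝ = 0 := fun i j k l hij => by
    have : ∀ m, ⟪h i k, ind (j - 1) m⟫_ℝ = 0 := fun m => by rw [h_inner, D_ind (by omega), mul_zero]
    rw [h.eq_1 j, real_inner_smul_right, inner_sub_right, this, this, sub_self, mul_zero]
  refine orthonormal_iff_ite.2 fun ⟨i, k⟩ ⟨j, l⟩ => ?_
  rcases lt_trichotomy i j with h1 | rfl | h1
  · rw [lt _ _ _ _ h1, if_neg (by simp [h1.ne])]
  · have h2 : (0 : ℝ) < 2 ^ i := by positivity
    simp only [h, real_inner_smul_left, real_inner_smul_right, inner_sub_left, inner_sub_right, ii,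
      Prod.mk.injEq, true_and, zpow_sub_one₀ (two_ne_zero (α := ℝ))]
    rw [if_neg (show ¬ 2 * k = 2 * l + 1 by omega), if_neg (show ¬ 2 * k + 1 = 2 * l by omega)]
    by_cases e : k = l
    · subst e
      simp only [if_true]
      rw [← mul_sub, ← mul_assoc, ← mul_inv, Real.mul_self_sqrt h2.le]; field_simp; ring
    · rw [if_neg e, if_neg (by omega), if_neg (by omega)]; simp
  · rw [real_inner_comm, lt _ _ _ _ h1, if_neg (by simp [h1.ne'])]

lemma compl (u : L2) (hu : ∀ j k, ⟪h j k, u⟫_ℝ = 0) : u = 0 := by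
  have h1 : ∀ j k, A u j k = A u (j + 1) (k / 2) := fun j k => by
    have := hu (j + 1) (k / 2)
    rw [h_inner, mul_eq_zero, or_iff_right (by positivity), Δ, add_sub_cancel_right] at this
    rw [A_split (intI u)]
    rcases Int.emod_two_eq_zero_or_one k with e | e
    · conv_lhs => rw [show k = 2 * (k / 2) by omega]
      linarith
    · conv_lhs => rw [show k = 2 * (k / 2) + 1 by omega]
      linarith
  have h2 : ∀ (n : ℕ) j k, ∃ l, A u j k = A u (j + n) l := fun n j k => by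
    induction n with
    | zero => exact ⟨k, by simp⟩
    | succ n ih => obtain ⟨l, hl⟩ := ih; exact ⟨_, by rw [hl, h1, Nat.cast_succ, add_assoc]⟩
  have h3 : ∀ j k, ∫ t in I j k, u t = 0 := fun j k => by
    have : ∀ n : ℕ, A u j k ^ 2 ≤ ‖u‖ ^ 2 / 2 ^ j / 2 ^ n := fun n => by
      obtain ⟨l, hl⟩ := h2 n j k
      have h3 := real_inner_mul_inner_self_le (ind (j + n) l) u
      rw [ii, if_pos rfl, ind_inner, ← hl, real_inner_self_eq_norm_sq] at h3
      rw [div_div, ← zpow_natCast (2 : ℝ) n, ← zpow_add₀ two_ne_zero, le_div_iff₀ (by positivity)]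
      exact le_of_mul_le_mul_right (by nlinarith) (show (0 : ℝ) < 2 ^ (j + n) by positivity)
    have h4 := ge_of_tendsto' (tendsto_const_nhds.div_atTop
      (tendsto_pow_atTop_atTop_of_one_lt one_lt_two)) this
    have h5 : A u j k = 0 := by nlinarith
    simpa [A, zpow_ne_zero] using h5
  have li : LocallyIntegrable u volume := (Lp.memLp u).locallyIntegrable one_le_two
  have ii : ∀ a b, IntervalIntegrable u volume a b := fun a b =>
    (li.integrableOn_isCompact isCompact_uIcc).intervalIntegrable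
  have h4 : ∀ j k : ℤ, ∫ t in (0 : ℝ)..k * 2 ^ j, u t = 0 := fun j k => by
    have : ∀ k : ℤ, ∫ t in (0 : ℝ)..(k + 1) * 2 ^ j, u t = ∫ t in (0 : ℝ)..k * 2 ^ j, u t := fun k => by
      have : (0 : ℝ) < 2 ^ j := by positivity
      rw [← intervalIntegral.integral_add_adjacent_intervals (ii _ (k * 2 ^ j)) (ii _ _),
        intervalIntegral.integral_of_le (a := k * 2 ^ j) (by linarith), integral_Ioc_eq_integral_Ioo,
        ← integral_Ico_eq_integral_Ioo]
      exact add_eq_left.2 (h3 j k)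
    induction k using Int.induction_on with
    | zero => simp
    | succ k ih => rw [Int.cast_add, Int.cast_one, this, ih]
    | pred k ih => rw [← this]; simpa using ih
  have h5 : ∀ x, ∫ t in (0 : ℝ)..x, u t = 0 := fun x => by
    have l : Tendsto (fun n : ℕ => (⌊x * 2 ^ n⌋ : ℝ) * 2 ^ (-n : ℤ)) atTop (𝓝 x) := by
      have := (tendsto_const_nhds (x := x)).sub ((tendsto_const_nhds (x := (1 : ℝ))).div_atTop
        (tendsto_pow_atTop_atTop_of_one_lt one_lt_two))
      rw [sub_zero] at this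
      refine tendsto_of_tendsto_of_tendsto_of_le_of_le this tendsto_const_nhds (fun n => ?_)
        fun n => ?_ <;> simp only [zpow_neg, zpow_natCast, ← div_eq_mul_inv]
      · rw [le_div_iff₀ (by positivity), sub_mul, div_mul_cancel₀ _ (by positivity)]
        exact (Int.sub_one_lt_floor _).le
      · rw [div_le_iff₀ (by positivity)]; exact Int.floor_le _
    have := ((intervalIntegral.continuous_primitive ii 0).tendsto x).comp l
    simp only [Function.comp_def, h4] at this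
    exact tendsto_nhds_unique this tendsto_const_nhds
  refine Lp.ext ?_
  filter_upwards [_root_.LocallyIntegrable.ae_hasDerivAt_integral li, Lp.coeFn_zero ℝ 2 (volume : Measure ℝ)] with x hx h0
  have := hx 0
  simp only [h5] at this
  rw [h0, this.unique (hasDerivAt_const x 0)]; rfl

def Sh (T : L2 → L2) : Prop :=
  ∀ j k, T (h j (2 * k + 1)) = h j (2 * k) ∧ T (h j (2 * k)) = -h j (2 * k + 1)

lemma hb {v : ℤ × ℤ → L2} (hv : Orthonormal ℝ v) (c : ∀ u, (∀ p, ⟪v p, u⟫_ℝ = 0) → u = 0) :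
    ∃ b : HilbertBasis (ℤ × ℤ) ℝ L2, ⇑b = v :=
  ⟨HilbertBasis.mkOfOrthogonalEqBot hv ((Submodule.eq_bot_iff _).2 fun u hu => c u fun p =>
    Submodule.inner_right_of_mem_orthogonal (Submodule.subset_span (mem_range_self p)) hu),
    HilbertBasis.coe_mkOfOrthogonalEqBot _ _⟩

lemma eo (k : ℤ) : ∃ l, k = 2 * l ∨ k = 2 * l + 1 := ⟨k / 2, by omega⟩

lemma exT : ∃ U : L2 ≃ₗᵢ[ℝ] L2, Sh U := by
  let σ : ℤ × ℤ → ℤ × ℤ := fun p => (p.1, if p.2 % 2 = 0 then p.2 + 1 else p.2 - 1)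
  let v : ℤ × ℤ → L2 := fun p => (if p.2 % 2 = 0 then -1 else 1 : ℝ) • h (σ p).1 (σ p).2
  have v0 : ∀ j k, v (j, 2 * k) = -h j (2 * k + 1) := fun j k => by simp [v, σ]
  have v1 : ∀ j k, v (j, 2 * k + 1) = h j (2 * k) := fun j k => by simp [v, σ]
  have hσ : Function.Injective σ := fun ⟨i, k⟩ ⟨j, l⟩ e => by
    simp only [σ, Prod.mk.injEq] at e ⊢
    refine ⟨e.1, ?_⟩
    have := e.2
    split_ifs at this <;> omega
  obtain ⟨b, hb1⟩ := hb ortho fun u hu => compl u fun j k => hu (j, k)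
  obtain ⟨c, hc⟩ := hb (v := v) ⟨fun p => by
      simp only [v, norm_smul, ortho.1 (σ p)]; split_ifs <;> simp, fun p q e => by
      simp only [v, real_inner_smul_left, real_inner_smul_right, ortho.2 (hσ.ne e), mul_zero]⟩
    fun u hu => compl u fun j k => by
      obtain ⟨l, rfl | rfl⟩ := eo k
      · rw [← v1, hu]
      · simpa [v0] using hu (j, 2 * l)
  have : ∀ j k, (b.repr.trans c.repr.symm) (h j k) = v (j, k) := fun j k => by
    rw [← hc, ← c.repr_symm_single, ← b.repr_self, hb1]; rfl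
  exact ⟨b.repr.trans c.repr.symm, fun j k => by rw [this, this, v0, v1]; exact ⟨rfl, rfl⟩⟩

theorem main (T : L2 →L[ℝ] L2) (hT : Sh T) (V : Set ℝ) (mV : MeasurableSet V) (fV : volume V ≠ ⊤)
    (f : L2) (hf : f =ᵐ[volume] V.indicator 1) :
    ∫ t in V, T f t ^ 2 ≤ (1 - exp (-42) / 40) * volume.real V := by
  obtain ⟨U, hU⟩ := exT
  obtain ⟨b, hb1⟩ := hb ortho fun u hu => compl u fun j k => hu (j, k)
  have e : T = U.toContinuousLinearEquiv.toContinuousLinearMap := by
    refine ContinuousLinearMap.ext_on (Submodule.dense_iff_topologicalClosure_eq_top.2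
      b.dense_span) ?_
    rintro _ ⟨⟨j, k⟩, rfl⟩
    rw [hb1]
    obtain ⟨l, rfl | rfl⟩ := eo k
    · exact (hT j l).2.trans (hU j l).2.symm
    · exact (hT j l).1.trans (hU j l).1.symm
  replace e : T f = U f := by rw [e]; rfl
  have eD : ∀ j k, Δ f j k = Δ (V.indicator 1) j k := fun j k => by
    simp only [Δ, A, integral_congr_ae (ae_restrict_of_ae hf)]
  have sq : ∀ u : L2, ∫ t, u t ^ 2 = ‖u‖ ^ 2 := fun u => by
    rw [← real_inner_self_eq_norm_sq, L2.inner_def]; simp [sq]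
  have c : ∀ j : ℤ, (√(2 ^ j))⁻¹ * 2 ^ j ≠ 0 := fun j => by positivity
  rw [e]
  refine glob mV fV (Lp.memLp _) ?_ (fun j k => mul_left_cancel₀ (c j) ?_) fun j k =>
    mul_left_cancel₀ (c j) ?_
  · rw [sq, U.norm_map, ← sq, ← integral_indicator_one mV]
    refine (integral_congr_ae ?_).le
    filter_upwards [hf] with t ht
    rw [ht]; by_cases h : t ∈ V <;> simp [h]
  · rw [← eD, ← h_inner, ← h_inner, ← (hU j k).1, U.inner_map_map]
  · rw [← eD, mul_neg, ← h_inner, ← h_inner, ← U.inner_map_map (h j (2 * k)), (hU j k).2,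
      inner_neg_left, neg_neg]

end Pool.Agent.H.MP_02a511_an
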